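import Pool.Agent.Helper84.AA.Defs

/-!
# EX-8: the roots of all `frob q (h j)`

`frob q h` is over `ℂ` the product of `T ^ 2 - r T + q = (T - z) (T - q / z)` over the roots `r = z + q / z` of `h`. Two of the
roots of `ww q * u` are `1 = π + q / π` and `ρ + q / ρ` with `ρ ^ 3 = q π`.
-/

set_option autoImplicit false

open Polynomial

namespace Pool.Agent.Helper8.EX

open Pool.Agent.Helper84.AA (frob)

theorem eval_frob (q : ℕ) (h : ℤ[X]) {x : ℂ} (hx : x ≠ 0) :
    ((frob q h).map (Int.castRingHom ℂ)).eval x =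
      x ^ h.natDegree * (h.map (Int.castRingHom ℂ)).eval (x + q / x) := by
  unfold frob
  rw [Polynomial.map_sum, eval_finsetSum, eval_map, eval₂_eq_sum_range, Finset.mul_sum]
  refine Finset.sum_congr rfl fun j hj => ?_
  have hj' : j ≤ h.natDegree := Nat.lt_succ_iff.1 (Finset.mem_range.1 hj)
  have e1 : x ^ h.natDegree = x ^ (h.natDegree - j) * x ^ j := by
    rw [← pow_add, Nat.sub_add_cancel hj']
  have e2 : x ^ 2 + (q : ℂ) = x * (x + q / x) := by
    field_simp
  simp only [Polynomial.map_mul, Polynomial.map_pow, Polynomial.map_add, map_X, map_C, eval_mul,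
    eval_pow, eval_add, eval_X, eval_C, Int.coe_castRingHom, Int.cast_natCast]
  rw [e2, e1, mul_pow]
  ring

theorem map_frob (q : ℕ) (h : ℤ[X]) (hm : h.Monic) :
    (frob q h).map (Int.castRingHom ℂ) =
      ((h.map (Int.castRingHom ℂ)).roots.map
        (fun r => X ^ 2 - C r * X + C (q : ℂ))).prod := by
  set H : ℂ[X] := h.map (Int.castRingHom ℂ) with hH
  have hHm : H.Monic := hm.map _
  have hsp : H.Splits := IsAlgClosed.splits H
  have hcard : H.roots.card = h.natDegree := by
    rw [← hsp.natDegree_eq_card_roots, hH, hm.natDegree_map]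
  have hprod : H = (H.roots.map (fun r => X - C r)).prod :=
    hsp.eq_prod_roots_of_monic hHm
  refine eq_of_infinite_eval_eq _ _ (Set.Infinite.mono (s := {x : ℂ | x ≠ 0}) ?_ ?_)
  · intro x hx
    have hx' : x ≠ 0 := hx
    show eval x _ = eval x _
    rw [eval_frob q h hx', ← hcard, ← hH]
    have e1 : eval (x + q / x) H = (H.roots.map (fun r => x + q / x - r)).prod := by
      conv_lhs => rw [hprod]
      rw [eval_multiset_prod, Multiset.map_map]
      congr 1
      refine Multiset.map_congr rfl fun r _ => ?_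
      simp
    rw [e1, eval_multiset_prod, Multiset.map_map]
    have e2 : x ^ H.roots.card = (H.roots.map (fun _ => x)).prod := by
      rw [Multiset.map_const', Multiset.prod_replicate]
    rw [e2, ← Multiset.prod_map_mul]
    congr 1
    refine Multiset.map_congr rfl fun r _ => ?_
    simp only [Function.comp, eval_add, eval_sub, eval_pow, eval_X, eval_mul, eval_C]
    field_simp
    ring
  · exact Set.Finite.infinite_compl (s := {(0 : ℂ)}) (Set.finite_singleton 0)

theorem quad (q : ℂ) (hq : q ≠ 0) (r : ℂ) : ∃ z : ℂ, z ≠ 0 ∧ r = z + q / z := by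
  have hd : (X ^ 2 - C r * X + C q : ℂ[X]).degree ≠ 0 := by
    have : (X ^ 2 - C r * X + C q : ℂ[X]).degree = 2 := by
      compute_degree!
    rw [this]
    decide
  obtain ⟨z, hz⟩ := IsAlgClosed.exists_root _ hd
  have hz' : z ^ 2 - r * z + q = 0 := by
    have := hz
    simpa [IsRoot] using this
  have hz0 : z ≠ 0 := by
    rintro rfl
    apply hq
    simpa using hz'
  refine ⟨z, hz0, ?_⟩
  field_simp
  linear_combination -hz'

theorem quad_fac (q z : ℂ) (hz : z ≠ 0) :
    (X ^ 2 - C (z + q / z) * X + C q : ℂ[X]) = (X - C z) * (X - C (q / z)) := by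
  have e1 : q = z * (q / z) := by field_simp
  have e2 : C q = C z * C (q / z) := by
    rw [← C_mul, ← e1]
  rw [e2, C_add]
  ring

/-- a product of polynomials `(T - z) (T - q / z)` -/
def Nice (q : ℂ) (P : ℂ[X]) : Prop :=
  ∃ l : List ℂ, (∀ z ∈ l, z ≠ 0) ∧ P = (l.map (fun z => (X - C z) * (X - C (q / z)))).prod

theorem Nice.mul {q : ℂ} {P Q : ℂ[X]} (hP : Nice q P) (hQ : Nice q Q) : Nice q (P * Q) := by
  obtain ⟨l, h1, h2⟩ := hP
  obtain ⟨l', h1', h2'⟩ := hQ
  refine ⟨l ++ l', ?_, ?_⟩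
  · intro z hz
    rcases List.mem_append.1 hz with h | h
    · exact h1 z h
    · exact h1' z h
  · rw [List.map_append, List.prod_append, ← h2, ← h2']

theorem Nice.one (q : ℂ) : Nice q 1 := ⟨[], by simp, by simp⟩

theorem Nice.prod {q : ℂ} {ι : Type} (s : Finset ι) (P : ι → ℂ[X]) (h : ∀ i ∈ s, Nice q (P i)) :
    Nice q (∏ i ∈ s, P i) := by
  classical
  induction s using Finset.induction_on with
  | empty => rw [Finset.prod_empty]; exact Nice.one q
  | insert a s ha ih =>
    rw [Finset.prod_insert ha]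
    exact (h a (Finset.mem_insert_self a s)).mul
      (ih fun i hi => h i (Finset.mem_insert_of_mem hi))

theorem nice_multiset (q : ℂ) (hq : q ≠ 0) (M : Multiset ℂ) :
    Nice q ((M.map (fun r => X ^ 2 - C r * X + C q)).prod) := by
  induction M using Multiset.induction_on with
  | empty => rw [Multiset.map_zero, Multiset.prod_zero]; exact Nice.one q
  | cons r M ih =>
    rw [Multiset.map_cons, Multiset.prod_cons]
    refine Nice.mul ?_ ih
    obtain ⟨z, hz, hr⟩ := quad q hq r
    refine ⟨[z], by simpa using hz, ?_⟩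
    rw [hr, quad_fac q z hz]
    simp

theorem roots_core {q : ℕ} (hq : 2 ≤ q) {k : ℕ} {h : Fin k → ℤ[X]} (hh : ∀ j, (h j).Monic)
    (i : Fin k) {u : ℤ[X]}
    (hi : h i = ((X - 1) * (X ^ 3 - C (3 * (q : ℤ)) * X - C (q : ℤ))) * u) :
    ∃ (n : ℕ) (z : Fin n → ℂ) (a b : Fin n), (∀ s, z s ≠ 0) ∧ a ≠ b ∧ z a ^ 3 = q * z b ∧
      (∏ j, (frob q (h j)).map (Int.castRingHom ℂ)) =
        ∏ s, ((X - C (z s)) * (X - C (q / z s))) := by
  classical
  have hq0 : (q : ℂ) ≠ 0 := by
    have : q ≠ 0 := by omega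
    exact_mod_cast this
  obtain ⟨π, hπ, hπ1⟩ := quad (q : ℂ) hq0 1
  obtain ⟨ρ, hρ⟩ : ∃ ρ : ℂ, ρ ^ 3 = q * π := IsAlgClosed.exists_pow_nat_eq _ (by norm_num)
  have hρ0 : ρ ≠ 0 := by
    rintro rfl
    rw [zero_pow (by norm_num)] at hρ
    exact mul_ne_zero hq0 hπ hρ.symm
  set r2 : ℂ := ρ + q / ρ with hr2
  have hr2' : r2 ^ 3 - 3 * q * r2 - q = 0 := by
    have e1 : r2 ^ 3 - 3 * q * r2 = ρ ^ 3 + (q : ℂ) ^ 3 / ρ ^ 3 := by
      rw [hr2]
      field_simp
      ring
    have e2 : (q : ℂ) ^ 3 / ρ ^ 3 = q * (q / π) := by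
      rw [hρ]
      field_simp
    rw [e1, e2, hρ]
    linear_combination (-(q : ℂ)) * hπ1
  set H : ℂ[X] := (h i).map (Int.castRingHom ℂ) with hH
  have hHm : H.Monic := (hh i).map _
  -- the two roots
  have hdvd : (X - C (1 : ℂ)) * (X - C r2) ∣ H := by
    rw [hH, hi]
    simp only [Polynomial.map_mul, Polynomial.map_sub, Polynomial.map_pow, map_X, map_C,
      Polynomial.map_one, Int.coe_castRingHom]
    refine Dvd.dvd.mul_right (mul_dvd_mul ?_ ?_) _
    · rw [C_1]
    · rw [dvd_iff_isRoot]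
      show eval r2 _ = 0
      simp only [eval_sub, eval_pow, eval_X, eval_mul, eval_C]
      push_cast
      linear_combination hr2'
  obtain ⟨W, hW⟩ := hdvd
  have hW0 : (X - C (1 : ℂ)) * (X - C r2) * W ≠ 0 := by
    rw [← hW]
    exact hHm.ne_zero
  have hroots : H.roots = 1 ::ₘ r2 ::ₘ W.roots := by
    rw [hW, roots_mul hW0, roots_mul (left_ne_zero_of_mul hW0), roots_X_sub_C, roots_X_sub_C,
      Multiset.singleton_add, Multiset.cons_add, Multiset.singleton_add]
  have hPi : (frob q (h i)).map (Int.castRingHom ℂ) =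
      ((X - C π) * (X - C (q / π))) * (((X - C ρ) * (X - C (q / ρ))) *
        (W.roots.map (fun r => X ^ 2 - C r * X + C (q : ℂ))).prod) := by
    rw [map_frob q (h i) (hh i), ← hH, hroots, Multiset.map_cons, Multiset.map_cons,
      Multiset.prod_cons, Multiset.prod_cons, hr2, quad_fac (q : ℂ) ρ hρ0,
      ← quad_fac (q : ℂ) π hπ, ← hπ1]
  obtain ⟨l, hl, hlP⟩ : Nice (q : ℂ) ((W.roots.map (fun r => X ^ 2 - C r * X + C (q : ℂ))).prod *
      ∏ j ∈ Finset.univ.erase i, (frob q (h j)).map (Int.castRingHom ℂ)) := by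
    refine (nice_multiset (q : ℂ) hq0 _).mul (Nice.prod _ _ fun j _ => ?_)
    rw [map_frob q (h j) (hh j)]
    exact nice_multiset (q : ℂ) hq0 _
  have htot : (∏ j, (frob q (h j)).map (Int.castRingHom ℂ)) =
      (((ρ :: π :: l).map (fun z => (X - C z) * (X - C ((q : ℂ) / z)))).prod) := by
    rw [← Finset.mul_prod_erase Finset.univ _ (Finset.mem_univ i), hPi, List.map_cons,
      List.map_cons, List.prod_cons, List.prod_cons, ← hlP]
    ring
  refine ⟨(ρ :: π :: l).length, fun s => (ρ :: π :: l).get s, ⟨0, by simp⟩, ⟨1, by simp⟩,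
    ?_, ?_, ?_, ?_⟩
  · intro s
    show (ρ :: π :: l).get s ≠ 0
    have hs : (ρ :: π :: l).get s ∈ ρ :: π :: l := List.get_mem _ _
    rcases List.mem_cons.1 hs with h1 | h1
    · rw [h1]; exact hρ0
    · rcases List.mem_cons.1 h1 with h2 | h2
      · rw [h2]; exact hπ
      · exact hl _ h2
  · intro h1
    have := congrArg Fin.val h1
    simp at this
  · exact hρ
  · rw [htot]
    exact (Fin.prod_univ_fun_getElem (ρ :: π :: l)
      (fun z => (X - C z) * (X - C ((q : ℂ) / z)))).symm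

end Pool.Agent.Helper8.EX
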